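import Pool.Agent.helper74.GB.VV

/-!
# Project gb, module L1: the matrix `τ` with first row equivalent to `(a ^ 2, b, c)`
-/

open Matrix

namespace GB

universe u

section L1

variable {A : Type*} [CommRing A]

/-- the matrix `τ` -/
def L1_tau (w w' : Fin 3 → A) : Matrix (Fin 3) (Fin 3) A :=
  !![w 0 ^ 2, w 0 * w 1 + w' 2, w 0 * w 2 - w' 1;
    w 0 * w 1 - w' 2, w 1 ^ 2, w 1 * w 2 + w' 0;
    w 0 * w 2 + w' 1, w 1 * w 2 - w' 0, w 2 ^ 2]

theorem L1_dot {x y : Fin 3 → A} : x ⬝ᵥ y = x 0 * y 0 + x 1 * y 1 + x 2 * y 2 := by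
  rw [dotProduct, Fin.sum_univ_three]

theorem L1_det (w w' : Fin 3 → A) : (L1_tau w w').det = (w ⬝ᵥ w') ^ 2 := by
  rw [Matrix.det_fin_three, L1_dot]
  change w 0 ^ 2 * w 1 ^ 2 * w 2 ^ 2 - w 0 ^ 2 * (w 1 * w 2 + w' 0) * (w 1 * w 2 - w' 0) -
    (w 0 * w 1 + w' 2) * (w 0 * w 1 - w' 2) * w 2 ^ 2 +
    (w 0 * w 1 + w' 2) * (w 1 * w 2 + w' 0) * (w 0 * w 2 + w' 1) +
    (w 0 * w 2 - w' 1) * (w 0 * w 1 - w' 2) * (w 1 * w 2 - w' 0) -
    (w 0 * w 2 - w' 1) * w 1 ^ 2 * (w 0 * w 2 + w' 1) = _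
  ring

theorem L1_mul (w w' : Fin 3 → A) (h : w ⬝ᵥ w' = 1) :
    (transvection 1 0 (w 0) * transvection 2 0 (w 1) * transvection 3 0 (w 2)) * V w w' *
      ((transvection 1 0 (w' 0) * transvection 2 0 (w' 1) * transvection 3 0 (w' 2)) *
        (transvection 0 1 (-(w 0)) * transvection 0 2 (-(w 1)) * transvection 0 3 (-(w 2)))) =
      oneSum (L1_tau w w') := by
  rw [L1_dot] at h
  have hL : (transvection 1 0 (w 0) * transvection 2 0 (w 1) * transvection 3 0 (w 2) :
      Matrix (Fin 4) (Fin 4) A) = !![1, 0, 0, 0; w 0, 1, 0, 0; w 1, 0, 1, 0; w 2, 0, 0, 1] := by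
    ext i j
    fin_cases i <;> fin_cases j <;>
      simp [transvection, Matrix.mul_apply, Fin.sum_univ_succ, Matrix.single_apply,
        Matrix.one_apply]
  have hL' : (transvection 1 0 (w' 0) * transvection 2 0 (w' 1) * transvection 3 0 (w' 2) :
      Matrix (Fin 4) (Fin 4) A) = !![1, 0, 0, 0; w' 0, 1, 0, 0; w' 1, 0, 1, 0; w' 2, 0, 0, 1] := by
    ext i j
    fin_cases i <;> fin_cases j <;>
      simp [transvection, Matrix.mul_apply, Fin.sum_univ_succ, Matrix.single_apply,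
        Matrix.one_apply]
  have hR : (transvection 0 1 (-(w 0)) * transvection 0 2 (-(w 1)) * transvection 0 3 (-(w 2)) :
      Matrix (Fin 4) (Fin 4) A) =
      !![1, -(w 0), -(w 1), -(w 2); 0, 1, 0, 0; 0, 0, 1, 0; 0, 0, 0, 1] := by
    ext i j
    fin_cases i <;> fin_cases j <;>
      simp [transvection, Matrix.mul_apply, Fin.sum_univ_succ, Matrix.single_apply,
        Matrix.one_apply]
  have hV : V w w' * !![1, 0, 0, 0; w' 0, 1, 0, 0; w' 1, 0, 1, 0; w' 2, 0, 0, 1] =
      !![1, w 0, w 1, w 2; -w 0, 0, w' 2, -w' 1; -w 1, -w' 2, 0, w' 0; -w 2, w' 1, -w' 0, 0] := by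
    ext i j
    fin_cases i <;> fin_cases j <;>
      simp [V, Matrix.mul_apply, Fin.sum_univ_succ] <;> first | ring1 | linear_combination h
  rw [hL, hL', hR, Matrix.mul_assoc, ← Matrix.mul_assoc (V w w'), hV]
  ext i j
  fin_cases i <;> fin_cases j <;>
    simp [oneSum, L1_tau, Matrix.mul_apply, Fin.sum_univ_succ] <;> ring

/-- the equivalence of `Fin 3 ⊕ Fin 1` and `Fin 4` with the additional index first -/
def L1_equiv : Fin 3 ⊕ Fin 1 ≃ Fin 4 where
  toFun := Sum.elim Fin.succ fun _ => 0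
  invFun := ![Sum.inr 0, Sum.inl 0, Sum.inl 1, Sum.inl 2]
  left_inv := by
    intro x
    rcases x with x | x <;> fin_cases x <;> rfl
  right_inv := by
    intro x
    fin_cases x <;> rfl

theorem L1_oneSum (σ : Matrix (Fin 3) (Fin 3) A) :
    oneSum σ = Matrix.reindex L1_equiv L1_equiv (dsum σ (1 : Matrix (Fin 1) (Fin 1) A)) := by
  ext i j
  fin_cases i <;> fin_cases j <;> rfl

theorem L1_oneSum_det (σ : Matrix (Fin 3) (Fin 3) A) : (oneSum σ).det = σ.det := by
  rw [L1_oneSum, Matrix.det_reindex_self, dsum, Matrix.det_fromBlocks_zero₂₁, Matrix.det_one,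
    mul_one]

theorem L1_E (w : Fin 3 → A) :
    (transvection 1 0 (w 0) * transvection 2 0 (w 1) * transvection 3 0 (w 2) :
      Matrix (Fin 4) (Fin 4) A) ∈ E (Fin 4) A :=
  (E (Fin 4) A).mul_mem ((E (Fin 4) A).mul_mem (transvection_mem_E (by decide) _)
    (transvection_mem_E (by decide) _)) (transvection_mem_E (by decide) _)

theorem L1_E' (w : Fin 3 → A) :
    (transvection 0 1 (w 0) * transvection 0 2 (w 1) * transvection 0 3 (w 2) :
      Matrix (Fin 4) (Fin 4) A) ∈ E (Fin 4) A :=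
  (E (Fin 4) A).mul_mem ((E (Fin 4) A).mul_mem (transvection_mem_E (by decide) _)
    (transvection_mem_E (by decide) _)) (transvection_mem_E (by decide) _)

/-- rows with a common dual are equivalent (version for length three) -/
theorem L1_common {v v' x : Fin 3 → A} (h : v ⬝ᵥ x = 1) (h' : v' ⬝ᵥ x = 1) : EEq v v' :=
  EEq_of_common_dual (by simp) v v' x h h'

/-- the row `(a ^ 2, ab + c', ac - b')` is equivalent to `(a ^ 2, b, c)` -/
theorem L1_row (a b c a' b' c' : A) (h : a * a' + b * b' + c * c' = 1) :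
    EEq ![a ^ 2, b, c] ![a ^ 2, a * b + c', a * c - b'] := by
  -- first step: the row changes by `(a' - 1)` times the second row
  have s1 : EEq ![a ^ 2, b, c] ![a ^ 2, b + (a' - 1) * (-(c' * (1 + a * a'))),
      c + (a' - 1) * (b' * (1 + a * a'))] := by
    refine L1_common (x := ![a' ^ 2, b' * (1 + a * a'), c' * (1 + a * a')]) ?_ ?_
    · rw [L1_dot]
      change a ^ 2 * a' ^ 2 + b * (b' * (1 + a * a')) + c * (c' * (1 + a * a')) = 1
      linear_combination (1 + a * a') * h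
    · rw [L1_dot]
      change a ^ 2 * a' ^ 2 + (b + (a' - 1) * (-(c' * (1 + a * a')))) * (b' * (1 + a * a')) +
        (c + (a' - 1) * (b' * (1 + a * a'))) * (c' * (1 + a * a')) = 1
      linear_combination (1 + a * a') * h
  -- second row: `(-(c' (1 + a a')), b' (1 + a a'))` plus the first row of the new matrix
  have s2 : EEq ![a ^ 2, b + (a' - 1) * (-(c' * (1 + a * a'))),
      c + (a' - 1) * (b' * (1 + a * a'))]
      ![a ^ 2, a * b + (a * a' - 1) * (-(c' * (1 + a * a'))),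
        a * c + (a * a' - 1) * (b' * (1 + a * a'))] := by
    refine L1_common (x := ![a' ^ 2, c + a' * (b' * (1 + a * a')),
      -(b + a' * (-(c' * (1 + a * a'))))]) ?_ ?_
    · rw [L1_dot]
      change a ^ 2 * a' ^ 2 + (b + (a' - 1) * (-(c' * (1 + a * a')))) *
        (c + a' * (b' * (1 + a * a'))) + (c + (a' - 1) * (b' * (1 + a * a'))) *
        (-(b + a' * (-(c' * (1 + a * a'))))) = 1
      linear_combination (1 + a * a') * h
    · rw [L1_dot]
      change a ^ 2 * a' ^ 2 + (a * b + (a * a' - 1) * (-(c' * (1 + a * a')))) *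
        (c + a' * (b' * (1 + a * a'))) + (a * c + (a * a' - 1) * (b' * (1 + a * a'))) *
        (-(b + a' * (-(c' * (1 + a * a'))))) = 1
      linear_combination (1 + a * a') * h
  -- last step: multiples of `a ^ 2`
  have s3 : EEq ![a ^ 2, a * b + (a * a' - 1) * (-(c' * (1 + a * a'))),
        a * c + (a * a' - 1) * (b' * (1 + a * a'))] ![a ^ 2, a * b + c', a * c - b'] := by
    have h1 := EEq_add_others 0 ![a ^ 2, a * b + (a * a' - 1) * (-(c' * (1 + a * a'))),
        a * c + (a * a' - 1) * (b' * (1 + a * a'))] ![0, a' ^ 2 * c', -(a' ^ 2 * b')] rfl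
    have h2 : ![a ^ 2, a * b + (a * a' - 1) * (-(c' * (1 + a * a'))),
        a * c + (a * a' - 1) * (b' * (1 + a * a'))] +
        (![a ^ 2, a * b + (a * a' - 1) * (-(c' * (1 + a * a'))),
        a * c + (a * a' - 1) * (b' * (1 + a * a'))] 0) • ![0, a' ^ 2 * c', -(a' ^ 2 * b')] =
        ![a ^ 2, a * b + c', a * c - b'] := by
      ext i
      fin_cases i
      · change a ^ 2 + a ^ 2 * 0 = a ^ 2
        ring
      · change a * b + (a * a' - 1) * (-(c' * (1 + a * a'))) + a ^ 2 * (a' ^ 2 * c') = a * b + c'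
        ring
      · change a * c + (a * a' - 1) * (b' * (1 + a * a')) + a ^ 2 * (-(a' ^ 2 * b')) = a * c - b'
        ring
    rwa [h2] at h1
  exact (s1.trans s2).trans s3

end L1

theorem L1 : L1_stmt.{u} := by
  intro A _ w w' h
  refine ⟨L1_tau w w', by rw [L1_det, h, one_pow], ?_, ?_⟩
  · intro 𝒦
    have hV : IsUnit (V w w').det := by rw [VV_det, h]; simp
    have hL := L1_E w
    have hL' := L1_E w'
    have hR := L1_E' (fun i => -(w i))
    have hτ : IsUnit (L1_tau w w').det := by rw [L1_det, h]; simp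
    have h1 : 𝒦.k (oneSum (L1_tau w w')) = 𝒦.k (L1_tau w w') := by
      rw [L1_oneSum, 𝒦.k_reindex, 𝒦.k_dsum_one _ hτ]
    have hdL := det_of_mem_E hL
    have hdR := det_of_mem_E ((E (Fin 4) A).mul_mem hL' hR)
    rw [← h1, ← L1_mul w w' h, 𝒦.k_mul _ _ (by rw [Matrix.det_mul, hdL, one_mul]; exact hV)
      (by rw [hdR]; exact isUnit_one), 𝒦.k_mul _ _ (by rw [hdL]; exact isUnit_one) hV,
      𝒦.k_E _ hL, 𝒦.k_E _ ((E (Fin 4) A).mul_mem hL' hR), zero_add, add_zero]
  · rw [L1_dot] at h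
    have h2 := (L1_row (w 0) (w 1) (w 2) (w' 0) (w' 1) (w' 2) (by linear_combination h)).symm
    exact h2

end GB
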