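import Pool.Agent.helper70.GB.SpecK

/-!
# Project gb, module VV: explicit identities for the alternating matrix `V`
-/

open Matrix

namespace GB

universe u

theorem VV_det {A : Type*} [CommRing A] (w w' : Fin 3 → A) : (V w w').det = (w ⬝ᵥ w') ^ 2 := by
  unfold V
  rw [Matrix.det_succ_row_zero]
  simp [Fin.sum_univ_succ, Matrix.det_fin_three, dotProduct, Fin.succAbove, Matrix.submatrix]
  ring

theorem VV_alt {A : Type*} [CommRing A] (w w' : Fin 3 → A) : IsAlt (V w w') := by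
  constructor
  · ext i j
    fin_cases i <;> fin_cases j <;> simp [V, Matrix.transpose_apply]
  · intro i
    fin_cases i <;> simp [V]

theorem VS : VS_stmt.{u} := by
  intro A _ σ hσ
  refine ⟨![σ 1 1 * σ 2 2 - σ 1 2 * σ 2 1, σ 1 2 * σ 2 0 - σ 1 0 * σ 2 2,
    σ 1 0 * σ 2 1 - σ 1 1 * σ 2 0], ?_, ?_⟩
  · rw [← hσ, Matrix.det_fin_three, dotProduct, Fin.sum_univ_three]
    change σ 0 0 * (σ 1 1 * σ 2 2 - σ 1 2 * σ 2 1) + σ 0 1 * (σ 1 2 * σ 2 0 - σ 1 0 * σ 2 2) +
      σ 0 2 * (σ 1 0 * σ 2 1 - σ 1 1 * σ 2 0) = _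
    ring
  · ext i j
    fin_cases i <;> fin_cases j <;>
      simp [V, e0, oneSum, Matrix.mul_apply, Fin.sum_univ_succ, Matrix.transpose_apply] <;> ring

theorem VE : VE_stmt.{u} := by
  intro A _
  refine ⟨?_, fun w w' => ⟨VV_alt w w', VV_det w w'⟩⟩
  have h : V (e0 A) (e0 A) = (transvection 0 1 (1 : A) * transvection 1 0 (-1 : A) *
      transvection 0 1 (1 : A)) * (transvection 2 3 (1 : A) * transvection 3 2 (-1 : A) *
      transvection 2 3 (1 : A)) := by
    ext i j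
    fin_cases i <;> fin_cases j <;>
      simp [V, e0, transvection, Matrix.mul_apply, Fin.sum_univ_succ, Matrix.single_apply,
        Matrix.one_apply]
  rw [h]
  refine (E (Fin 4) A).mul_mem ((E (Fin 4) A).mul_mem ((E (Fin 4) A).mul_mem ?_ ?_) ?_)
    ((E (Fin 4) A).mul_mem ((E (Fin 4) A).mul_mem ?_ ?_) ?_) <;>
    exact transvection_mem_E (by decide) _

end GB
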